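import Mathlib
import Pool.Agent.Run7.h50.Queue

set_option autoImplicit false

namespace Pool.Agent.Results.MP_b05f6a_co.UnboundedQueueNumber

/-- `H` is an `r`-shallow minor of `G`: there are pairwise disjoint sets `B i` of vertices of `G`,
one for every vertex `i` of `H`, such that `G[B i]` has a vertex `x i` from which every vertex of
`B i` is reached by a walk of length at most `r` inside `B i` (so it is connected of radius at
most `r`), and for every edge `i j` of `H` the graph `G` has an edge between `B i` and `B j`. -/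
def IsShallowMinor {V : Type} (G : SimpleGraph V) (r : ℕ) {n : ℕ} (H : SimpleGraph (Fin n)) :
    Prop :=
  ∃ (B : Fin n → Set V) (x : Fin n → V),
    (∀ i j, i ≠ j → Disjoint (B i) (B j)) ∧
    (∀ i, x i ∈ B i ∧ ∀ y ∈ B i, ∃ p : G.Walk (x i) y, p.length ≤ r ∧ ∀ z ∈ p.support, z ∈ B i) ∧
    (∀ i j, H.Adj i j → ∃ a ∈ B i, ∃ b ∈ B j, G.Adj a b)

/-- `G` has a `k`-queue layout: a linear order of the vertices and a partition of the edges into `k`
classes such that no two edges `x y`, `u v` of one class satisfy `x < u < v < y`. -/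
def HasQueueLayout {V : Type} (G : SimpleGraph V) (k : ℕ) : Prop :=
  ∃ (_ : LinearOrder V) (q : Sym2 V → Fin k), ∀ x y u v : V, G.Adj x y → G.Adj u v →
    q s(x, y) = q s(u, v) → ¬ (x < u ∧ u < v ∧ v < y)

/-- There is a class `𝒢` of finite graphs with linear expansion (`|E(H)| ≤ c (r + 1) |V(H)|` for every
`r`-shallow minor `H` of a member, with `c = 24`) that contains, for every `k`, a graph without
a `k`-queue layout. -/
theorem result :
    ∃ 𝒢 : (V : Type) → SimpleGraph V → Prop,
      (∀ (V : Type) (G : SimpleGraph V), 𝒢 V G → Finite V) ∧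
      (∀ (V : Type) (G : SimpleGraph V), 𝒢 V G → ∀ (r n : ℕ) (H : SimpleGraph (Fin n)),
        IsShallowMinor G r H → H.edgeSet.ncard ≤ 24 * (r + 1) * n) ∧
      ∀ k : ℕ, ∃ (V : Type) (G : SimpleGraph V), 𝒢 V G ∧ ¬ HasQueueLayout G k := by
  classical
  refine ⟨fun V G => Finite V ∧ ∀ (r n : ℕ) (H : SimpleGraph (Fin n)),
        IsShallowMinor G r H → H.edgeSet.ncard ≤ 24 * (r + 1) * n,
    fun V G h => h.1, fun V G h => h.2, fun k => ?_⟩
  obtain ⟨V, hV, G, h1, h2⟩ := Run7.h50.exists_graph_queue k
  refine ⟨V, G, ⟨Finite.of_fintype V, ?_⟩, ?_⟩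
  · rintro r n H ⟨B, x, hd, hr, hH⟩
    refine (h1 r n H B x hd hr hH).trans ?_
    apply Nat.mul_le_mul_right
    omega
  · rintro ⟨hlin, q, hq⟩
    let pos : V → ℕ := fun v => (Finset.univ.filter (· < v)).card
    have hmono : StrictMono pos := by
      intro u v huv
      apply Finset.card_lt_card
      rw [Finset.ssubset_iff_of_subset]
      · exact ⟨u, by simp [huv], by simp⟩
      · intro w hw
        rw [Finset.mem_filter] at hw ⊢
        exact ⟨hw.1, hw.2.trans huv⟩
    obtain ⟨x, y, u, v, hxy, huv, he, h3, h4, h5⟩ := h2 pos hmono.injective q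
    rw [hmono.lt_iff_lt] at h3 h4 h5
    exact hq x y u v hxy huv he ⟨h3, h4, h5⟩

end Pool.Agent.Results.MP_b05f6a_co.UnboundedQueueNumber
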